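import Pool.Agent.Y472.E.Defs

/-!
# Closed 3-braids, any number of full twists: definitions and statements

The variable `χ` of the axis is near a complex number `χ₀`, `-π / 2 ≤ Re χ₀ ≤ 0 < Im χ₀ < 9 / 5`.
-/

set_option autoImplicit false

namespace Pool.Agent.Y472

open Finset Filter Topology Metric
open Pool.Agent.W711.HT
open Pool.Agent.Y481 (itI itN Sep wts cw)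
open scoped Real

/-! ### The leading exponent -/

/-- `artanh (sin (χ / 2))` -/
noncomputable def gh (χ : ℂ) : ℂ := Complex.log ((1 + Complex.sin (χ / 2)) / Complex.cos (χ / 2))

/-- the exponent of the kernel at `(0, 0, χ)` -/
noncomputable def s0 (χ : ℂ) : ℂ :=
  1 / π * ∫ θ in (-(π / 2))..(π / 2), Complex.log (2 * Complex.cos (χ / 2) + 2 * Complex.cos (θ : ℂ))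

/-- `log |2 cos (χ / 2) + 2 cos θ|` -/
noncomputable def Lm (χ : ℂ) (θ : ℝ) : ℝ := Real.log ‖2 * Complex.cos (χ / 2) + 2 * Complex.cos (θ : ℂ)‖

/-- S0P: properties of the leading exponent -/
def S_S0P : Prop :=
  (∀ χ : ℂ, |χ.re| < π → HasDerivAt s0 (-(1 / π) * gh χ) χ ∧
    HasDerivAt gh (1 / (2 * Complex.cos (χ / 2))) χ) ∧
  (∀ χ : ℂ, s0 (-χ) = s0 χ) ∧ s0 0 = ((2 * bet : ℝ) : ℂ) ∧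
  (∀ χ : ℂ, |χ.re| < π → (s0 χ).re = 1 / π * ∫ θ in (-(π / 2))..(π / 2), Lm χ θ) ∧
  ∀ x : ℝ, 2 * π / 3 - 1 / 100 ≤ |x| → |x| ≤ 2 * π / 3 → (s0 x).re ≤ 157 / 200

/-! ### The product formula and bounds -/

/-- `∏_{j<n} (2 cos (χ / 2) + 2 cos (u - π (2 j + 1 - n) / N))` -/
noncomputable def Cn (N n : ℕ) (χ u : ℂ) : ℂ :=
  ∏ j ∈ range n, (2 * Complex.cos (χ / 2) + 2 * Complex.cos (u - π * (2 * (j : ℂ) + 1 - n) / N))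

/-- PF: the product formula for the kernel, the second variable at a node -/
def S_PF : Prop := ∀ (N p q : ℕ) (ψ χ : ℂ), p + q + 1 = N →
  kh N ψ (π * ((p : ℂ) - q) / N) χ =
    1 / (2 * π) * ∫ t in (-π)..π, Cn N p χ (t + ψ / 2) * Cn N q χ (t - ψ / 2)

/-- CNB: bound of the products by integrals -/
def S_CNB : Prop := ∀ ε : ℝ, 0 < ε → ∃ τ : ℝ, 0 < τ ∧ ∀ᶠ N : ℕ in atTop, ∀ n < N, ∀ (x y : ℝ) (χ : ℂ),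
  |y| ≤ τ → |χ.re| ≤ π → |χ.im| ≤ 9 / 5 → ‖Cn N n χ (x + y * Complex.I)‖ ≤
    Real.exp (N * (1 / (2 * π) * (∫ θ in (x - π * n / N)..(x + π * n / N), Lm χ θ) + ε))

/-- LMI: the integrals -/
def S_LMI : Prop := ∃ ρs c₂ : ℝ, 0 < ρs ∧ ρs ≤ 1 ∧ 0 < c₂ ∧ ∀ (χ : ℂ) (t x x' : ℝ),
  |χ.re| ≤ 2 * π / 3 → |χ.im| ≤ 9 / 5 → |t| ≤ π → |x| ≤ π → |x'| ≤ π →
  1 / (2 * π) * ((∫ θ in (t + x / 2 - (π + x') / 2)..(t + x / 2 + (π + x') / 2), Lm χ θ) +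
    ∫ θ in (t - x / 2 - (π - x') / 2)..(t - x / 2 + (π - x') / 2), Lm χ θ) ≤
  (s0 χ).re - c₂ * min |x| ρs ^ 2 - c₂ * min |x'| ρs ^ 2 - c₂ * min |t| ρs ^ 2

/-- bound of the kernel -/
def KBZc : Prop := ∃ ρs c₂ : ℝ, 0 < ρs ∧ ρs ≤ 1 ∧ 0 < c₂ ∧ ∀ ε : ℝ, 0 < ε → ∃ τ : ℝ, 0 < τ ∧
  ∀ᶠ N : ℕ in atTop, ∀ ψ ψ' χ : ℂ, |ψ.re| ≤ π → |ψ.im| ≤ τ → |ψ'.re| ≤ π → |ψ'.im| ≤ τ →
    |χ.re| ≤ 2 * π / 3 → |χ.im| ≤ 9 / 5 → ‖kh N ψ ψ' χ‖ ≤ Real.exp (N * ((s0 χ).re -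
      c₂ * min |ψ.re| ρs ^ 2 - c₂ * min |ψ'.re| ρs ^ 2 + ε))

/-- KBZ -/
def S_KBZ : Prop := S_PF → S_CNB → S_LMI → KBZc

/-! ### The exponent near `(0, 0, χ₀)` -/

/-- the region of `χ₀` -/
def Zr (χ₀ : ℂ) : Prop := -(π / 2) ≤ χ₀.re ∧ χ₀.re ≤ 0 ∧ 0 < χ₀.im ∧ χ₀.im < 9 / 5

/-- the box around `χ₀` -/
def Rz (χ₀ : ℂ) (ρ : ℝ) : Set ℂ := {χ | χ - χ₀ ∈ Rc ρ ρ}

/-- `∫_0^u log (2 cos (χ / 2) + 2 cos v) dv` along the segment -/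
noncomputable def FF (χ u : ℂ) : ℂ :=
  u * ∫ x in (0:ℝ)..1, Complex.log (2 * Complex.cos (χ / 2) + 2 * Complex.cos (u * x))

/-- arc sine -/
noncomputable def asn (z : ℂ) : ℂ :=
  -Complex.I * Complex.log (Complex.I * z + (1 - z ^ 2) ^ (1 / 2 : ℂ))

/-- the saddle point -/
noncomputable def tzz (ψ ψ' χ : ℂ) : ℂ :=
  asn (-(Complex.sin (ψ / 2) * Complex.sin (ψ' / 2) / Complex.cos (χ / 2)))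

/-- the exponent of the integrand of the product formula -/
noncomputable def Fz (χ ψ ψ' t : ℂ) : ℂ :=
  (FF χ (t + ψ / 2 + (π + ψ') / 2) - FF χ (t + ψ / 2 - (π + ψ') / 2) +
    FF χ (t - ψ / 2 + (π - ψ') / 2) - FF χ (t - ψ / 2 - (π - ψ') / 2)) / (2 * π)

/-- the exponent of the kernel -/
noncomputable def szz (ψ ψ' χ : ℂ) : ℂ := Fz χ ψ ψ' (tzz ψ ψ' χ)

/-- the critical value of `d / N` -/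
noncomputable def dzz (ψ ψ' χ : ℂ) : ℂ :=
  Complex.arctan (Complex.cos (ψ / 2) * Complex.cos (ψ' / 2) /
    (Complex.cos (χ / 2) * Complex.cos (tzz ψ ψ' χ))) / π

structure SDZ (χ₀ : ℂ) (ρ₀ c C : ℝ) (s dl : ℂ → ℂ → ℂ → ℂ) : Prop where
  hρ : 0 < ρ₀ ∧ ρ₀ ≤ 1
  hc : 0 < c
  hC : 0 < C
  san : DifferentiableOn ℂ (fun p : ℂ × ℂ × ℂ => s p.1 p.2.1 p.2.2)
    (Rc ρ₀ ρ₀ ×ˢ Rc ρ₀ ρ₀ ×ˢ Rz χ₀ ρ₀)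
  dan : DifferentiableOn ℂ (fun p : ℂ × ℂ × ℂ => dl p.1 p.2.1 p.2.2)
    (Rc ρ₀ ρ₀ ×ˢ Rc ρ₀ ρ₀ ×ˢ Rz χ₀ ρ₀)
  sbd : ∀ ψ ∈ Rc ρ₀ ρ₀, ∀ ψ' ∈ Rc ρ₀ ρ₀, ∀ χ ∈ Rz χ₀ ρ₀, ‖s ψ ψ' χ‖ ≤ C
  sym : ∀ ψ ∈ Rc ρ₀ ρ₀, ∀ ψ' ∈ Rc ρ₀ ρ₀, ∀ χ ∈ Rz χ₀ ρ₀, s ψ ψ' χ = s ψ' ψ χ
  dsym : ∀ ψ ∈ Rc ρ₀ ρ₀, ∀ ψ' ∈ Rc ρ₀ ρ₀, ∀ χ ∈ Rz χ₀ ρ₀, dl ψ ψ' χ = dl ψ' ψ χ
  ev : ∀ ψ ∈ Rc ρ₀ ρ₀, ∀ ψ' ∈ Rc ρ₀ ρ₀, ∀ χ ∈ Rz χ₀ ρ₀, s (-ψ) ψ' χ = s ψ ψ' χ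
  dev : ∀ ψ ∈ Rc ρ₀ ρ₀, ∀ ψ' ∈ Rc ρ₀ ρ₀, ∀ χ ∈ Rz χ₀ ρ₀, dl (-ψ) ψ' χ = dl ψ ψ' χ
  zero : ∀ χ ∈ Rz χ₀ ρ₀, s 0 0 χ = s0 χ
  conc : ∀ ψ ∈ Rc ρ₀ ρ₀, ∀ ψ' ∈ Rc ρ₀ ρ₀, ∀ χ ∈ Rz χ₀ ρ₀,
    (deriv (deriv fun z => s z ψ' χ) ψ).re ≤ -c ∧ (deriv (deriv fun z => s ψ ψ' z) χ).re ≤ -c
  dclose : ∀ ψ ∈ Rc ρ₀ ρ₀, ∀ ψ' ∈ Rc ρ₀ ρ₀, ∀ χ ∈ Rz χ₀ ρ₀, ‖dl ψ ψ' χ - 1 / 4‖ ≤ 1 / 8
  dcos : ∀ ψ ∈ Rc ρ₀ ρ₀, ∀ ψ' ∈ Rc ρ₀ ρ₀, ∀ χ ∈ Rz χ₀ ρ₀, Complex.cos (2 * π * dl ψ ψ' χ) =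
    (Complex.cos χ - Complex.cos ψ * Complex.cos ψ') /
      (1 + Complex.cos χ + Complex.cos ψ + Complex.cos ψ')
  dcrit : ∀ ψ ∈ Rc ρ₀ ρ₀, ∀ ψ' ∈ Rc ρ₀ ρ₀, ∀ χ ∈ Rz χ₀ ρ₀,
    Complex.log (2 * Complex.cos ψ + 2 * Complex.cos (2 * π * dl ψ ψ' χ)) +
      Complex.log (2 * Complex.cos ψ' + 2 * Complex.cos (2 * π * dl ψ ψ' χ)) =
      Complex.log (2 * Complex.cos χ - 2 * Complex.cos (2 * π * dl ψ ψ' χ)) +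
      2 * Complex.log (2 * Complex.sin (π * dl ψ ψ' χ))
  scrit : ∀ ψ ∈ Rc ρ₀ ρ₀, ∀ ψ' ∈ Rc ρ₀ ρ₀, ∀ χ ∈ Rz χ₀ ρ₀,
    s ψ ψ' χ = rrF (dl ψ ψ' χ) ψ + rrF (dl ψ ψ' χ) ψ' + rrF (1 / 2 - dl ψ ψ' χ) χ -
      2 * ssF (dl ψ ψ' χ)
  sder : ∀ ψ ∈ Rc ρ₀ ρ₀, ∀ ψ' ∈ Rc ρ₀ ρ₀, ∀ χ ∈ Rz χ₀ ρ₀,
    HasDerivAt (fun z => s z ψ' χ) (-(1 / (2 * π)) * Lg (2 * π * dl ψ ψ' χ) ψ) ψ
  sderc : ∀ ψ ∈ Rc ρ₀ ρ₀, ∀ ψ' ∈ Rc ρ₀ ρ₀, ∀ χ ∈ Rz χ₀ ρ₀,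
    HasDerivAt (fun z => s ψ ψ' z) (-(1 / (2 * π)) * Lg (π - 2 * π * dl ψ ψ' χ) χ) χ

/-- SDZ -/
def S_SDZ : Prop := S_S0P → ∀ χ₀ : ℂ, Zr χ₀ → ∃ ρ₀ c C : ℝ, SDZ χ₀ ρ₀ c C szz dzz

/-! ### Asymptotics of the kernel near `(0, 0, χ₀)` -/

/-- end correction of the midpoint sums -/
noncomputable def Dc (h : ℝ) (N : ℕ) (f : ℂ → ℂ) (u : ℂ) : ℂ :=
  Complex.I * ∫ y in (0:ℝ)..h,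
    (f (u - y * Complex.I) - f (u + y * Complex.I)) / (1 + Real.exp (N * y) : ℝ)

/-- MPZ: midpoint sums of analytic functions -/
def S_MPZ : Prop := ∀ (h C : ℝ) (N n : ℕ) (a : ℂ) (f : ℂ → ℂ), 0 < h → 0 ≤ C → 1 ≤ N * h →
  (∀ u : ℂ, a.re ≤ u.re → u.re ≤ a.re + 2 * π * n / N → |u.im - a.im| ≤ h →
    DifferentiableAt ℂ f u ∧ ‖f u‖ ≤ C) →
  ‖∑ j ∈ range n, f (a + π * (2 * (j : ℂ) + 1) / N) -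
    N / (2 * π) * ((∫ x in (0:ℝ)..(2 * π * n / N), f (a + x)) -
      (Dc h N f (a + 2 * π * n / N) - Dc h N f a))‖ ≤ 4 * n * C * Real.exp (-(N * h))

/-- local analytic interpolation of the kernel in the second variable -/
def LOZc : Prop := ∀ χ₀ : ℂ, Zr χ₀ → ∃ ρ₁ κ : ℝ, 0 < ρ₁ ∧ ρ₁ ≤ 1 ∧ 0 < κ ∧
  ∃ A : ℕ → ℂ → ℂ → ℂ → ℂ,
  (∀ᶠ N : ℕ in atTop, ∀ ψ ∈ Rc ρ₁ ρ₁, ∀ χ ∈ Rz χ₀ ρ₁,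
    DifferentiableOn ℂ (fun x => A N ψ x χ) (Rc ρ₁ ρ₁)) ∧
  (∀ ε : ℝ, 0 < ε → ∀ᶠ N : ℕ in atTop, ∀ ψ ∈ Rc ρ₁ ρ₁, ∀ x ∈ Rc ρ₁ ρ₁, ∀ χ ∈ Rz χ₀ ρ₁,
    A N ψ x χ ≠ 0 ∧ |Real.log ‖A N ψ x χ‖ - N * (szz ψ x χ).re| ≤ ε * N) ∧
  ∀ᶠ N : ℕ in atTop, ∀ p q : ℕ, p + q + 1 = N → |π * ((p : ℝ) - q) / N| < ρ₁ →
    ∀ ψ ∈ Rc ρ₁ ρ₁, ∀ χ ∈ Rz χ₀ ρ₁,
      ‖kh N ψ (π * ((p : ℂ) - q) / N) χ - A N ψ (π * ((p : ℂ) - q) / N) χ‖ ≤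
        Real.exp (N * ((s0 χ₀).re - κ))

/-- LOZ -/
def S_LOZ : Prop := S_PF → S_MPZ → S_CNB → S_LMI → S_S0P →
  (∀ χ₀ : ℂ, Zr χ₀ → ∃ ρ₀ c C : ℝ, SDZ χ₀ ρ₀ c C szz dzz) → LOZc

/-- asymptotics of the kernel near `(0, 0, χ₀)` -/
def MWZc : Prop := ∀ χ₀ : ℂ, Zr χ₀ → ∃ ρ₁ : ℝ, 0 < ρ₁ ∧ ρ₁ ≤ 1 ∧ ∀ ε : ℝ, 0 < ε →
  ∀ᶠ N : ℕ in atTop, ∀ ψ ∈ Rc ρ₁ ρ₁, ∀ ψ' ∈ Rc ρ₁ ρ₁, ∀ χ ∈ Rz χ₀ ρ₁, kh N ψ ψ' χ ≠ 0 ∧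
    |Real.log ‖kh N ψ ψ' χ‖ - N * (szz ψ ψ' χ).re| ≤ ε * N

/-- MWZ -/
def S_MWZ : Prop := KBZc → LOZc →
  (∀ χ₀ : ℂ, Zr χ₀ → ∃ ρ₀ c C : ℝ, SDZ χ₀ ρ₀ c C szz dzz) → MWZc

/-! ### The traces -/

/-- the full kernel -/
noncomputable def kF (N : ℕ) (ψ ψ' χ : ℂ) : ℂ :=
  ∑ d ∈ range N, Rp N d ψ * Rp N d ψ' * Tg N 0 χ / ∏ t ∈ Ioc 0 d, Ph N χ t

/-- the full kernel of the ring -/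
noncomputable def WkF (n N : ℕ) (χ : ℂ) (ψ : ℕ → ℂ) : ℂ :=
  ∏ j ∈ range n, kF N (ψ j) (ψ ((j + 1) % n)) χ

/-- KFF: the trace in terms of the full kernel -/
def S_KFF : Prop := ∀ (N : ℕ) (ls : List (ℤ × ℤ)) (χ : ℂ), 2 ≤ N → ls ≠ [] →
  (∀ t : ℕ, 1 ≤ t → t < N → Ph N χ t ≠ 0) →
  Tf N ls χ = ((N : ℂ) / (2 * π)) ^ (2 * ls.length) *
    itI (cw ls) N (2 * ls.length) (WkF (2 * ls.length) N χ) 0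

/-- TFB: bounds of the traces by bounds of the kernels -/
def S_TFB : Prop := S_KFF → S_KF → ∀ ls : List (ℤ × ℤ), ls ≠ [] → ∃ C : ℝ, 0 < C ∧
  ∀ (N : ℕ) (χ : ℂ) (B B' : ℝ), 2 ≤ N → (∀ t : ℕ, 1 ≤ t → t < N → Ph N χ t ≠ 0) → 0 ≤ B' → B' ≤ B →
  (∀ ψ ψ' : ℂ, |ψ.re| ≤ π → |ψ.im| ≤ 1 / N → |ψ'.re| ≤ π → |ψ'.im| ≤ 1 / N →
    ‖kh N ψ ψ' χ‖ ≤ B ∧ ‖kF N ψ ψ' χ - kh N ψ ψ' χ‖ ≤ B') →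
  ‖Tf N ls χ‖ ≤ C * (N : ℝ) ^ (4 * ls.length) * B ^ (2 * ls.length) ∧
  ‖Tf N ls χ - Tm N ls χ‖ ≤ C * (N : ℝ) ^ (4 * ls.length) * B ^ (2 * ls.length - 1) * B'

/-- away from the points `2 π t / N` -/
def Gap (N : ℕ) (χ : ℂ) : Prop := ∀ t : ℤ, 1 / (N : ℝ) ≤ ‖χ - 2 * π * t / N‖

/-- the rest of the kernel -/
def KRZc : Prop := ∀ ε : ℝ, 0 < ε → ∃ τ : ℝ, 0 < τ ∧ ∀ᶠ N : ℕ in atTop, ∀ ψ ψ' χ : ℂ,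
  |ψ.re| ≤ π → |ψ.im| ≤ τ → |ψ'.re| ≤ π → |ψ'.im| ≤ τ → |χ.re| ≤ π → |χ.im| ≤ 9 / 5 → Gap N χ →
  ‖kF N ψ ψ' χ - kh N ψ ψ' χ‖ ≤ Real.exp (N * (bet + ε))

/-- KRZ -/
def S_KRZ : Prop := S_TB0 → S_TBY → S_RHO → S_RHOY → KRZc

/-- RHOA: the integrals for `χ` near `[2 π / 3, π]` -/
def S_RHOA : Prop := ∀ δ x : ℝ, 0 ≤ δ → δ ≤ 1 / 2 → 2 * π / 3 - 1 / 100 ≤ |x| → |x| ≤ π →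
  2 * max (bb δ 0) 0 - rh δ x ≤ 157 / 200

/-- bound of the kernel for `χ` near `[2 π / 3, π]` -/
def KAZc : Prop := ∀ ε : ℝ, 0 < ε → ∃ τ : ℝ, 0 < τ ∧ ∀ᶠ N : ℕ in atTop, ∀ ψ ψ' χ : ℂ,
  |ψ.re| ≤ π → |ψ.im| ≤ τ → |ψ'.re| ≤ π → |ψ'.im| ≤ τ → 2 * π / 3 - 1 / 100 ≤ |χ.re| → |χ.re| ≤ π →
  |χ.im| ≤ τ → ‖kh N ψ ψ' χ‖ ≤ Real.exp (N * (157 / 200 + ε))

/-- KAZ -/
def S_KAZ : Prop := S_TB0 → S_RHO → S_RHOA → KAZc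

/-- RHOT: the integrals for the blocks -/
def S_RHOT : Prop := ∀ δ δ' x : ℝ, 0 ≤ x → x ≤ π → 1 - x / (2 * π) ≤ δ → δ ≤ 1 → 0 ≤ δ' →
  δ' ≤ x / (2 * π) →
  (2 * max (bb δ 0) 0 - rh δ x) + (2 * max (bb δ' 0) 0 - rh δ' x) ≤ 13 / 10

/-- THZ: bounds of the blocks -/
def S_THZ : Prop := S_TB0 → S_RHO → S_RHOT → ∀ ls : List (ℤ × ℤ), ls ≠ [] → ∀ ε : ℝ, 0 < ε →
  ∀ᶠ N : ℕ in atTop, ∀ p < N,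
    (2 * p ≤ N → ‖Thi N ls p‖ ≤ Real.exp (N * (13 / 10 * ls.length + ε))) ∧
    (N ≤ 2 * p → ‖Tf N ls (2 * π * p / N) - Thi N ls p‖ ≤
      Real.exp (N * (13 / 10 * ls.length + ε)))

/-- FAZ: bounds of the traces -/
def S_FAZ : Prop := KBZc → KRZc → KAZc → S_TFB → S_KFF → S_KF → S_S0P →
  ∀ (ls : List (ℤ × ℤ)) (m : ℤ), ls ≠ [] → ∀ ε : ℝ, 0 < ε → ∀ᶠ N : ℕ in atTop,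
  (∀ p : ℕ, N / 3 ≤ p → 2 * p ≤ N →
    ‖deriv (fun χ => wE N m χ * Tf N ls χ) (2 * π * p / N)‖ ≤
      Real.exp (N * (157 / 100 * ls.length + ε))) ∧
  ∀ χ : ℂ, |χ.re| ≤ 2 * π / 3 → |χ.im| ≤ 9 / 5 → Gap N χ →
    ‖Tf N ls χ‖ ≤ Real.exp (N * (2 * ls.length * max (s0 χ).re bet + ε)) ∧
    ‖Tf N ls χ - Tm N ls χ‖ ≤
      Real.exp (N * ((2 * ls.length - 1) * max (s0 χ).re bet + bet + ε))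

/-! ### The variable of the axis -/

/-- half width of the rectangle: between the points `2 π p / N` with `p = N / 3 - 1` and
`p = N / 3` -/
noncomputable def RN (N : ℕ) : ℝ := π * (2 * ((N / 3 - 1 : ℕ) : ℝ) + 1) / N

/-- CIZ: the sum over the values `χ = 2 π p / N`, `|p| < N / 3`, by the line through `χ₀ + z` -/
def S_CIZ : Prop := ∀ (m : ℤ) (χ₀ z : ℂ) (R c κ V : ℝ) (X : ℕ → ℂ → ℂ) (G : ℂ → ℂ), 0 < R → R ≤ 1 →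
  R < χ₀.im → |χ₀.re| + R < 2 → 0 < c → 0 < κ → (∀ N, Differentiable ℂ (X N)) →
  (∀ N w, X N (-w) = X N w) → DifferentiableOn ℂ G (Rc R R) →
  (∀ w ∈ Rc R R, (deriv (deriv G) w).re ≤ -c) → MW (fun N w => X N (w + χ₀)) G (Rc R R) →
  z ∈ Rc (R / 4) (R / 4) → Complex.I * m * (χ₀ + z) / π + Complex.I + deriv G z = 0 →
  V = (Complex.I * m * (χ₀ + z) ^ 2 / (2 * π) + Complex.I * (χ₀ + z) + G z).re →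
  (∀ᶠ N : ℕ in atTop, ∀ x : ℝ, |x| ≤ 2 * π / 3 → R / 2 ≤ |x - χ₀.re| →
    ‖wE N m (x + (χ₀ + z).im * Complex.I) * X N (x + (χ₀ + z).im * Complex.I)‖ ≤
      Real.exp (N * (V + (χ₀ + z).im - κ))) →
  (∀ᶠ N : ℕ in atTop, ∀ y : ℝ, 0 ≤ y → y ≤ (χ₀ + z).im → ∀ σ : ℝ, |σ| = 1 →
    ‖wE N m (σ * RN N + y * Complex.I) * X N (σ * RN N + y * Complex.I)‖ ≤
      Real.exp (N * (V + y - κ))) →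
  Tendsto (fun N : ℕ => Real.log ‖∑ p ∈ Ioo (-((N / 3 : ℕ) : ℤ)) ((N / 3 : ℕ) : ℤ),
    deriv (fun χ => wE N m χ * X N χ) (2 * π * p / N)‖ / N) atTop (𝓝 V)

/-- the leading critical function -/
noncomputable def Vz (k : ℕ) (m : ℤ) (χ : ℂ) : ℝ :=
  (Complex.I * m * χ ^ 2 / (2 * π) + Complex.I * χ + 2 * k * s0 χ).re

/-- the leading critical point -/
def Crz (k : ℕ) (m : ℤ) (χ₀ : ℂ) : Prop :=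
  Zr χ₀ ∧ Complex.I * m * χ₀ / π + Complex.I = 2 * k / π * gh χ₀ ∧
  317 / 200 * k ≤ Vz k m χ₀ ∧ (2 * m / 3 - 1) * χ₀.im + 2 * k * bet < Vz k m χ₀ ∧ bet < (s0 χ₀).re

/-- CSZ: the leading critical point -/
def S_CSZ : Prop := S_S0P → ∀ (k : ℕ) (m : ℤ), 1 ≤ k → 0 ≤ m → ¬ (k = 1 ∧ m = 0) →
  ∃ χ₀ : ℂ, Crz k m χ₀

/-- real part of the exponent of `wE N m (x + y i) * exp (i N (x + y i))` -/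
noncomputable def Wt (m : ℤ) (x y : ℝ) : ℝ := -(m * x * y) / π - y

/-- CTZ: the leading critical function on the contour -/
def S_CTZ : Prop := S_S0P → ∀ (k : ℕ) (m : ℤ) (χ₀ : ℂ), 1 ≤ k → 0 ≤ m → Crz k m χ₀ →
  ∃ κ₀ δ₀ : ℝ, 0 < κ₀ ∧ 0 < δ₀ ∧ (∀ r : ℝ, 0 < r → ∃ κ δ : ℝ, 0 < κ ∧ 0 < δ ∧
    ∀ h : ℝ, |h - χ₀.im| ≤ δ → ∀ x : ℝ, |x| ≤ 2 * π / 3 → r ≤ |x - χ₀.re| →
      Wt m x h + 2 * k * max (s0 (x + h * Complex.I)).re bet ≤ Vz k m χ₀ - κ) ∧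
  ∀ h : ℝ, |h - χ₀.im| ≤ δ₀ →
    (∀ x : ℝ, |x| ≤ 2 * π / 3 →
      Wt m x h + (2 * k - 1) * max (s0 (x + h * Complex.I)).re bet + bet ≤ Vz k m χ₀ - κ₀) ∧
    ∀ x y : ℝ, 2 * π / 3 - 1 / 100 ≤ |x| → |x| ≤ 2 * π / 3 → 0 ≤ y → y ≤ h →
      Wt m x y + 2 * k * max (s0 (x + y * Complex.I)).re bet ≤ Vz k m χ₀ - κ₀

/-! ### The ring -/

/-- the shift of the last variable -/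
noncomputable def shz (χ₀ : ℂ) (s : ℂ → ℂ → ℂ → ℂ) : ℂ → ℂ → ℂ → ℂ :=
  fun ψ ψ' χ => s ψ ψ' (χ + χ₀)

/-- POTZ: the ring has a potential -/
def S_POTZ : Prop := ∀ (χ₀ : ℂ) (ρ₀ c C : ℝ) (s dl : ℂ → ℂ → ℂ → ℂ), bet ≤ (s0 χ₀).re →
  SDZ χ₀ ρ₀ c C s dl →
  ∃ R c' : ℝ, 0 < R ∧ R ≤ ρ₀ ∧ 0 < c' ∧ ∀ n : ℕ, 2 ≤ n → ∃ B : ℝ, 0 < B ∧
    PotE (n + 1) n R c' B (bet / 2) (Sr (shz χ₀ s) n) (Dr (shz χ₀ s) n)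

/-- the conclusion of XLZ -/
def XLZc : Prop := ∀ (χ₀ : ℂ) (ρ₀ c C : ℝ), Zr χ₀ → bet ≤ (s0 χ₀).re → SDZ χ₀ ρ₀ c C szz dzz →
  ∀ k : ℕ, 1 ≤ k → ∃ R c' : ℝ, 0 < R ∧ R ≤ 1 ∧ R ≤ ρ₀ ∧ 0 < c' ∧
    ∃ B C' M : ℝ, 0 < B ∧ 0 < C' ∧ 0 < M ∧ ∀ ls : List (ℤ × ℤ), ls.length = k →
      (∀ p ∈ ls, M ≤ |(p.1 : ℝ)| ∧ M ≤ |(p.2 : ℝ)|) → ∃ (G : ℂ → ℂ) (z : ℂ → ℕ → ℂ),
        DifferentiableOn ℂ G (Rc R R) ∧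
        (∀ χ ∈ Rc R R, ‖G χ‖ ≤ B ∧ (deriv (deriv G) χ).re ≤ -c') ∧
        MW (fun N χ => XN ls N (χ + χ₀)) G (Rc R R) ∧
        (∀ χ ∈ Rc R R, (∀ j < 2 * k, z χ j ∈ Rc (R / 2) (R / 2) ∧ 0 < (z χ j).im ∧
            ‖z χ j‖ ≤ 1 / 10 ∧
          Complex.I * cw ls ((j + 1) % (2 * k)) * z χ ((j + 1) % (2 * k)) / (2 * π) + Complex.I +
            deriv (fun w => szz (z χ j) w (χ + χ₀)) (z χ ((j + 1) % (2 * k))) +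
            deriv (fun w => szz w (z χ (((j + 1) % (2 * k) + 1) % (2 * k))) (χ + χ₀))
              (z χ ((j + 1) % (2 * k))) = 0) ∧
          deriv G χ = ∑ j ∈ range (2 * k),
            deriv (fun w => szz (z χ j) (z χ ((j + 1) % (2 * k))) w) (χ + χ₀) ∧
          G χ = ∑ j ∈ range (2 * k), (Complex.I * cw ls j * z χ j ^ 2 / (4 * π) +
            Complex.I * z χ j + szz (z χ j) (z χ ((j + 1) % (2 * k))) (χ + χ₀))) ∧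
        ∀ m : ℝ, (∀ p ∈ ls, m ≤ |(p.1 : ℝ)| ∧ m ≤ |(p.2 : ℝ)|) → 0 < m →
          (∀ χ ∈ Rc R R, ∀ j < 2 * k, ‖z χ j‖ ≤ C' / m) ∧
          ∀ χ ∈ Rc R R, ‖G χ - 2 * k * szz 0 0 (χ + χ₀)‖ ≤ C' / m

/-- XLZ: asymptotics of `XN` near `χ = χ₀` -/
def S_XLZ : Prop := S_POTZ → S_CRE → S_ELE → MWZc → KBZc → XLZc

/-! ### Assembly -/

/-- critical configurations near `χ₀` -/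
def RCritZ (s : ℂ → ℂ → ℂ → ℂ) (χ₀ : ℂ) (ρ : ℝ) (n : ℕ) (a : ℕ → ℤ) (m : ℤ) (z : ℕ → ℂ)
    (χ : ℂ) : Prop :=
  χ ∈ Rz χ₀ ρ ∧
  (∀ j < n, z j ∈ Rc ρ ρ ∧ 0 < (z j).im ∧ ‖z j‖ ≤ 1 / 10 ∧
    Complex.I * a ((j + 1) % n) * z ((j + 1) % n) / (2 * π) + Complex.I +
      deriv (fun w => s (z j) w χ) (z ((j + 1) % n)) +
      deriv (fun w => s w (z (((j + 1) % n + 1) % n)) χ) (z ((j + 1) % n)) = 0) ∧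
  Complex.I * m * χ / π + Complex.I +
    ∑ j ∈ range n, deriv (fun w => s (z j) (z ((j + 1) % n)) w) χ = 0

/-- MAINZ: the growth rate -/
def S_MAINZ : Prop := ∀ (k : ℕ) (m : ℤ), 1 ≤ k → 0 ≤ m → ¬ (k = 1 ∧ m = 0) →
  ∃ (χ₀ : ℂ) (ρ₀ c C : ℝ), Zr χ₀ ∧ SDZ χ₀ ρ₀ c C szz dzz ∧ ∀ ε : ℝ, 0 < ε → ∃ M : ℝ,
    ∀ ls : List (ℤ × ℤ), ls.length = k → (∀ p ∈ ls, M ≤ |(p.1 : ℝ)| ∧ M ≤ |(p.2 : ℝ)|) →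
    ∃ (z : ℕ → ℂ) (χ : ℂ), RCritZ szz χ₀ ρ₀ (2 * k) (cw ls) m z χ ∧
      (∀ j < 2 * k, ‖z j‖ ≤ ε) ∧ ‖χ - χ₀‖ ≤ ε ∧
      Tendsto (fun N : ℕ => Real.log ‖Pool.Agent.H550R3.Jones.cjones N 2 (ftw m ++ bw ls) (vN N)‖ / N)
        atTop (𝓝 (RVal3 szz (2 * k) (cw ls) m z χ).re)

/-- MIR: mirror images -/
def S_MIR : Prop := ∀ (N : ℕ) (ls : List (ℤ × ℤ)) (m : ℤ), 2 ≤ N → ls ≠ [] →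
  ‖Pool.Agent.H550R3.Jones.cjones N 2 (ftw (-m) ++ bw (ls.map fun p => (-p.1, -p.2))) (vN N)‖ =
    ‖Pool.Agent.H550R3.Jones.cjones N 2 (ftw m ++ bw ls) (vN N)‖

end Pool.Agent.Y472
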