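import Pool.Agent.Y472.A.Final
import Pool.Agent.Y421.CG.MainZ
import Pool.Agent.Y125.CG.Cnb
import Pool.Agent.Y991.CG.LMI
import Pool.Agent.Y68.CG.KBZ
import Pool.Agent.Y954.CG.Mpz
import Pool.Agent.Y710.CG.S0P
import Pool.Agent.Y691.CG.KFF
import Pool.Agent.Y691.CG.TFB
import Pool.Agent.Y37.CG.Krz
import Pool.Agent.Y280.CG.Faz
import Pool.Agent.Y563.CG.Ciz
import Pool.Agent.Y25.CG.CTZ
import Pool.Agent.Y674.CG.XLZ
import Pool.Agent.Y590.CB.KF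
import Pool.Agent.Y784.CBE.CRE
import Pool.Agent.Y232.CB.ELE
import Pool.Agent.Y46.CB.TBY
import Pool.Agent.Y317.CB.Rhoy
import Pool.Agent.Y105.CB.Rho
import Pool.Agent.Y288.CB.TB0
import Pool.Agent.Y481.Wm
import Pool.Agent.Y240.CG.PotZ
import Pool.Agent.Y238.CG.PF
import Pool.Agent.Y319.CG.Loz
import Pool.Agent.Y79.CG.Rhot2
import Pool.Agent.Y79.CG.Thz
import Pool.Agent.Y252.CG.Rhoa
import Pool.Agent.Y252.CG.Kaz
import Pool.Agent.Y232.CG.Mwz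
import Pool.Agent.Y641.CG.Main
import Pool.Agent.Y761.CG.Csz

/-!
# Closed 3-braids, any number of full twists: assembly of the growth rate
-/

set_option autoImplicit false

namespace Pool.Agent.Y472.G

open Finset Filter Topology Metric
open Pool.Agent.W711.HT
open Pool.Agent.Y472 Pool.Agent.Y421.CG
open Pool.Agent.Y481 (cw)
open scoped Real

theorem mainzu : S_MAINZ := by
  have hRHO : S_RHO := Pool.Agent.Y105.CB.rho
  have hTB0 : S_TB0 := Pool.Agent.Y288.CB.tb0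
  have hRY : S_RHOY := Pool.Agent.Y317.CB.rhoy
  have hTY : S_TBY := Pool.Agent.Y46.CB.tby
  have hS0 : S_S0P := Pool.Agent.Y710.CG.s0p
  have hKB : KBZc := Pool.Agent.Y68.CG.kbz Pool.Agent.Y238.CG.pf Pool.Agent.Y125.CG.cnb Pool.Agent.Y991.CG.lmi
  have hSDc := Pool.Agent.Y641.CG.sdz hS0
  have hLOc : LOZc := Pool.Agent.Y319.CG.loz Pool.Agent.Y238.CG.pf Pool.Agent.Y954.CG.mpz Pool.Agent.Y125.CG.cnb
    Pool.Agent.Y991.CG.lmi hS0 hSDc
  have hMWc : MWZc := Pool.Agent.Y232.CG.mwz hKB hLOc hSDc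
  exact mainz Pool.Agent.Y481.bet_pos (fun N ls m hN hl => exact_formula N ls m hN hl)
    Pool.Agent.Y590.CB.kf
    (fazc_of Pool.Agent.Y280.CG.faz hKB (Pool.Agent.Y37.CG.krz hTB0 hTY hRHO hRY)
      (Pool.Agent.Y252.CG.kaz hTB0 hRHO Pool.Agent.Y252.CG.rhoa) Pool.Agent.Y691.CG.tfb Pool.Agent.Y691.CG.kff Pool.Agent.Y590.CB.kf hS0)
    (thzc_of Pool.Agent.Y79.CG.thz hTB0 hRHO Pool.Agent.Y79.CG.rhot)
    (Pool.Agent.Y674.CG.xlz Pool.Agent.Y240.CG.potz Pool.Agent.Y784.CBE.cre Pool.Agent.Y232.CBE.ele hMWc hKB)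
    Pool.Agent.Y563.CG.ciz (cszc_of Pool.Agent.Y761.CG.csz hS0) (ctzc_of Pool.Agent.Y25.CG.ctz hS0) hS0 hSDc

end Pool.Agent.Y472.G
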